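import Pool.Agent.Helper75.PX.Stmts6

/-! # PX: the row TZ -/

set_option autoImplicit false

universe u

open Module TensorProduct Cardinal Algebra

namespace Pool.Agent.Helper75.PX

theorem st_TZ : ST_TZ.{u} := by
  intro F K _ _ _ S ζ n hζ h
  have h2 := trdeg_add_eq F (IntermediateField.adjoin F S)
    (A := IntermediateField.adjoin (IntermediateField.adjoin F S) {ζ})
  have hi : IsIntegral (IntermediateField.adjoin F S) ζ := by
    refine ⟨Polynomial.X ^ 2 + Polynomial.X + 1, ?_, ?_⟩
    · monicity!
    · simpa using hζ
  have h3 : Algebra.IsAlgebraic (IntermediateField.adjoin F S)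
      (IntermediateField.adjoin (IntermediateField.adjoin F S) {ζ}) := by
    apply IntermediateField.isAlgebraic_adjoin
    intro x hx
    rw [Set.mem_singleton_iff] at hx
    rw [hx]
    exact hi
  have h4 : Algebra.trdeg (IntermediateField.adjoin F S)
      (IntermediateField.adjoin (IntermediateField.adjoin F S) {ζ}) = 0 :=
    trdeg_eq_zero
  rw [← IntermediateField.adjoin_adjoin_left]
  change Algebra.trdeg F (IntermediateField.adjoin (IntermediateField.adjoin F S) {ζ}) ≤ _
  rw [← h2, h4, add_zero]
  exact h

end Pool.Agent.Helper75.PX
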